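import Mathlib

/-!
# MP_395df9_lc

If the stick principle holds and the continuum hypothesis fails, then there is no
`(1, ω)`-weakly universal function on the pairs of `ω₁`.
-/

namespace Pool.Agent.Results.MP_395df9_lc.StickNoUniversal

open Cardinal

/-- The set of countable ordinals: the canonical well-ordered set of order type `ω₁`, the
initial ordinal of the cardinal `ℵ₁`. -/
abbrev W1 : Type := (ℵ₁ : Cardinal.{0}).ord.ToType

/-- The set `[ω₁]²` of unordered pairs of distinct countable ordinals. -/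
abbrev Pairs : Type := {s : Finset W1 // s.card = 2}

/-- The unordered pair `{a, b}` for distinct `a` and `b`. -/
noncomputable def pair (a b : W1) (h : a ≠ b) : Pairs := ⟨{a, b}, Finset.card_pair h⟩

/-- `U` is `(1, κ)`-weakly universal. -/
def WeaklyUniversal (κ : Cardinal.{0}) (U : Pairs → ℕ) : Prop :=
  ∀ F : Pairs → ℕ, ∃ (h : W1 → W1) (hh : Function.Injective h) (e : ℕ → ℕ),
    (∀ n : ℕ, #(e ⁻¹' {n}) < κ) ∧
    ∀ (a b : W1) (hab : a ≠ b), F (pair a b hab) = e (U (pair (h a) (h b) (hh.ne hab)))

/-- The stick principle: there is a family of `ω₁` many countably infinite subsets of `ω₁`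
such that every uncountable subset of `ω₁` contains a member of the family. -/
def Stick : Prop :=
  ∃ S : Set (Set W1), #S = ℵ₁ ∧ (∀ s ∈ S, s.Countable ∧ s.Infinite) ∧
    ∀ X : Set W1, ¬ X.Countable → ∃ s ∈ S, s ⊆ X

theorem mk_W1 : #W1 = ℵ₁ := by
  simp [W1]

theorem not_countable_of_card {α : Type} {X : Set α} (h : ℵ₁ ≤ #X) : ¬ X.Countable := by
  intro hX
  have h1 : #X ≤ ℵ₀ := hX.le_aleph0
  exact absurd (h.trans h1) (not_le.2 aleph0_lt_aleph_one)

theorem countable_Iic (d : W1) : (Set.Iic d).Countable := by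
  have h1 : #(Set.Iio d) < ℵ₁ := Cardinal.mk_Iio_toType_ord_lt d
  have h2 : (Set.Iio d).Countable := by
    rw [← Cardinal.le_aleph0_iff_set_countable]
    have h3 : #(Set.Iio d) < Order.succ ℵ₀ := by
      rw [succ_aleph0]
      exact h1
    exact Order.lt_succ_iff.1 h3
  rw [← Set.Iio_union_right]
  exact h2.union (Set.countable_singleton d)

/-- A countable subset of `ω₁` is bounded. -/
theorem exists_bound (c : ℕ → W1) : ∃ d : W1, ∀ n, c n ≤ d := by
  by_contra hcon
  push Not at hcon
  have huniv : (Set.univ : Set W1) ⊆ ⋃ n, Set.Iic (c n) := by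
    intro d _
    obtain ⟨n, hn⟩ := hcon d
    exact Set.mem_iUnion.2 ⟨n, hn.le⟩
  have hcount : (Set.univ : Set W1).Countable :=
    (Set.countable_iUnion fun n => countable_Iic (c n)).mono huniv
  refine not_countable_of_card ?_ hcount
  rw [mk_univ, mk_W1]

theorem result (hstick : Stick) (hc : (ℵ₁ : Cardinal.{0}) < 𝔠) :
    ¬ ∃ U : Pairs → ℕ, WeaklyUniversal ℵ₀ U := by
  classical
  rintro ⟨U, hU⟩
  obtain ⟨S, hScard, hSinf, hS⟩ := hstick
  -- a bijection of `ω₁ × ω₁` with `ω₁`
  have hprod : #(W1 × W1) = #W1 := by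
    rw [mk_prod]
    simp only [lift_id, mk_W1]
    exact mul_eq_self (aleph0_le_aleph 1)
  obtain ⟨g⟩ := Cardinal.eq.1 hprod
  -- an enumeration of the stick family
  obtain ⟨σ⟩ : Nonempty (W1 ≃ S) := Cardinal.eq.1 (by rw [mk_W1, hScard])
  -- an injective sequence in each member of the family
  have hex : ∀ i : W1, ∃ t : ℕ → W1, Function.Injective t ∧ ∀ n, t n ∈ (σ i : Set W1) := by
    intro i
    have h1 := (hSinf (σ i) (σ i).2).2
    exact ⟨fun n => (h1.natEmbedding _ n : W1), fun m n hmn =>
      (h1.natEmbedding _).injective (Subtype.ext hmn), fun n => (h1.natEmbedding _ n).2⟩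
  choose t ht_inj ht_mem using hex
  let a : W1 → ℕ → W1 := fun i n => (g.symm (t i n)).1
  let b : W1 → ℕ → W1 := fun i n => (g.symm (t i n)).2
  -- the set of the traces
  let Uv : W1 → W1 → ℕ := fun x y => if h : x ≠ y then U (pair x y h) else 0
  let Φ : (W1 × W1) × Finset ℕ → (ℕ → Bool) := fun p n => decide (Uv (b p.1.1 n) p.1.2 ∈ p.2)
  have hcardW : #(Set.range Φ) < #(ℕ → Bool) := by
    refine mk_range_le.trans_lt ?_
    have h1 : #((W1 × W1) × Finset ℕ) = ℵ₁ := by
      rw [mk_prod, mk_finset_of_infinite, mk_nat, hprod]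
      simp only [lift_id, mk_W1]
      exact mul_aleph0_eq (aleph0_le_aleph 1)
    have h2 : #(ℕ → Bool) = 𝔠 := by simp
    rw [h1, h2]
    exact hc
  obtain ⟨r, hr⟩ : ∃ r : ℕ → Bool, r ∉ Set.range Φ := by
    by_contra hcon
    push Not at hcon
    have : Set.range Φ = Set.univ := Set.eq_univ_of_forall hcon
    rw [this, mk_univ] at hcardW
    exact lt_irrefl _ hcardW
  -- the function `F`
  let f : W1 → W1 → ℕ := fun x y =>
    if ∃ n, a (g.symm y).1 n = x ∧ r n = true then 1 else 0
  let F : Pairs → ℕ := fun p =>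
    f (p.1.min' (Finset.card_pos.1 (by rw [p.2]; norm_num)))
      (p.1.max' (Finset.card_pos.1 (by rw [p.2]; norm_num)))
  have hF : ∀ (x y : W1) (hxy : x < y), F (pair x y hxy.ne) = f x y := by
    intro x y hxy
    have hmin : ∀ h, ({x, y} : Finset W1).min' h = x := by
      intro h
      apply le_antisymm
      · exact Finset.min'_le _ _ (by simp)
      · refine Finset.le_min' _ _ _ ?_
        intro z hz
        rcases Finset.mem_insert.1 hz with h1 | h1
        · exact h1.ge
        · rw [Finset.mem_singleton.1 h1]; exact hxy.le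
    have hmax : ∀ h, ({x, y} : Finset W1).max' h = y := by
      intro h
      apply le_antisymm
      · refine Finset.max'_le _ _ _ ?_
        intro z hz
        rcases Finset.mem_insert.1 hz with h1 | h1
        · rw [h1]; exact hxy.le
        · exact (Finset.mem_singleton.1 h1).le
      · exact Finset.le_max' _ _ (by simp)
    exact congrArg₂ f (hmin _) (hmax _)
  obtain ⟨h, hh, e, he, hFe⟩ := hU F
  -- the graph of `h`
  let X : Set W1 := Set.range fun x => g (x, h x)
  have hX : ¬ X.Countable := by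
    apply not_countable_of_card
    rw [mk_range_eq _ (fun x y hxy => (Prod.ext_iff.1 (g.injective hxy)).1), mk_W1]
  obtain ⟨s, hsS, hsX⟩ := hS X hX
  obtain ⟨i, hi⟩ : ∃ i, σ i = ⟨s, hsS⟩ := σ.surjective _
  have hab : ∀ n, b i n = h (a i n) := by
    intro n
    have h1 : t i n ∈ s := by
      have := ht_mem i n
      rw [hi] at this
      exact this
    obtain ⟨x, hx⟩ := hsX h1
    have h2 : g.symm (t i n) = (x, h x) := by
      rw [← hx]
      exact g.symm_apply_apply _
    change (g.symm (t i n)).2 = h (g.symm (t i n)).1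
    rw [h2]
  have ha_inj : Function.Injective (a i) := by
    intro m n hmn
    have h1 : b i m = b i n := by rw [hab, hab, hmn]
    have h2 : g.symm (t i m) = g.symm (t i n) := Prod.ext hmn h1
    exact ht_inj i (g.symm.injective h2)
  obtain ⟨d, hd⟩ := exists_bound (a i)
  -- a large ordinal coding `i`
  obtain ⟨y, hyi, hyd⟩ : ∃ y : W1, (g.symm y).1 = i ∧ d < y := by
    by_contra hcon
    push Not at hcon
    have hsub : (Set.range fun z : W1 => g (i, z)) ⊆ Set.Iic d := by
      rintro _ ⟨z, rfl⟩
      exact hcon _ (by simp)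
    refine not_countable_of_card ?_ ((countable_Iic d).mono hsub)
    rw [mk_range_eq _ (fun x y hxy => (Prod.ext_iff.1 (g.injective hxy)).2), mk_W1]
  have hfin : (e ⁻¹' {1}).Finite := by
    rw [← Cardinal.lt_aleph0_iff_set_finite]
    exact he 1
  apply hr
  refine ⟨((i, h y), hfin.toFinset), ?_⟩
  funext n
  have hlt : a i n < y := (hd n).trans_lt hyd
  have hne : b i n ≠ h y := by
    rw [hab]
    exact hh.ne hlt.ne
  have h1 : f (a i n) y = e (Uv (b i n) (h y)) := by
    rw [← hF _ _ hlt, hFe]
    have h3 : Uv (b i n) (h y) = U (pair (b i n) (h y) hne) := dif_pos hne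
    rw [h3]
    congr 3
    exact (hab n).symm
  have h2 : f (a i n) y = if r n = true then 1 else 0 := by
    change (if ∃ m, a (g.symm y).1 m = a i n ∧ r m = true then 1 else 0) = _
    congr 1
    rw [hyi]
    apply propext
    constructor
    · rintro ⟨m, hm1, hm2⟩
      rwa [ha_inj hm1] at hm2
    · intro h
      exact ⟨n, rfl, h⟩
  change decide (Uv (b i n) (h y) ∈ hfin.toFinset) = r n
  have h5 : Uv (b i n) (h y) ∈ hfin.toFinset ↔ r n = true := by
    rw [hfin.mem_toFinset, Set.mem_preimage, Set.mem_singleton_iff, ← h1, h2]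
    cases r n <;> simp
  cases hrn : r n
  · rw [decide_eq_false_iff_not, h5, hrn]
    simp
  · rw [decide_eq_true_iff, h5, hrn]

end Pool.Agent.Results.MP_395df9_lc.StickNoUniversal
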